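import Pool.Agent.Q101.PathLat

set_option autoImplicit false

namespace Pool.Agent.Results.MP_23899c_an.PathLattice

open Q101.LatLift

universe u v

/-- `P` is a projective Banach lattice (isometric notion), the test spaces ranging over the
universe `u`: lattice homomorphisms of `P` into a lattice quotient `Z` of a Banach lattice `X`
lift to `X`, with the norm increased by at most the factor `1 + ε`. -/
def IsProjective (P : Type) [NormedAddCommGroup P] [NormedSpace ℝ P] [Lattice P] : Prop :=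
  ∀ (X Z : Type u) [NormedAddCommGroup X] [NormedSpace ℝ X] [CompleteSpace X] [Lattice X]
    [IsOrderedAddMonoid X] [IsOrderedModule ℝ X] [HasSolidNorm X]
    [NormedAddCommGroup Z] [NormedSpace ℝ Z] [Lattice Z] [IsOrderedAddMonoid Z]
    [IsOrderedModule ℝ Z] [HasSolidNorm Z] (Q : X →L[ℝ] Z), IsLatticeQuotient Q →
    ∀ T : P →L[ℝ] Z, IsLatticeHom T → ∀ ε : ℝ, 0 < ε →
      ∃ T' : P →L[ℝ] X, IsLatticeHom T' ∧ Q.comp T' = T ∧ ‖T'‖ ≤ (1 + ε) * ‖T‖

/-- `P` is isometrically lattice isomorphic to the `ℓ_1`-sum of the Banach lattices `E n`. -/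
def IsL1Sum (P : Type) [NormedAddCommGroup P] [NormedSpace ℝ P] [Lattice P] (E : ℕ → Type v)
    [∀ n, NormedAddCommGroup (E n)] [∀ n, NormedSpace ℝ (E n)] [∀ n, Lattice (E n)] : Prop :=
  ∃ U : P ≃ₗᵢ[ℝ] lp E 1, ∀ (a : P) (n : ℕ), U |a| n = |U a n|

/-- There is a Dedekind complete projective Banach lattice that is not isometrically lattice
isomorphic to an `ℓ_1`-sum of finite-dimensional Banach lattices. -/
theorem result : ∃ (P : Type) (_ : NormedAddCommGroup P) (_ : NormedSpace ℝ P)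
    (_ : CompleteSpace P) (_ : Lattice P) (_ : IsOrderedAddMonoid P) (_ : IsOrderedModule ℝ P)
    (_ : HasSolidNorm P),
    IsProjective.{u} P ∧ (∀ S : Set P, S.Nonempty → BddAbove S → ∃ b, IsLUB S b) ∧
    ∀ (E : ℕ → Type v) [∀ n, NormedAddCommGroup (E n)] [∀ n, NormedSpace ℝ (E n)]
      [∀ n, Lattice (E n)] [∀ n, IsOrderedAddMonoid (E n)] [∀ n, IsOrderedModule ℝ (E n)]
      [∀ n, HasSolidNorm (E n)] [∀ n, FiniteDimensional ℝ (E n)], ¬ IsL1Sum P E := by
  refine ⟨Q101.PathLat.P, inferInstance, inferInstance, inferInstance, inferInstance,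
    inferInstance, inferInstance, inferInstance, ?_, Q101.PathLat.dedekind, ?_⟩
  · intro X Z _ _ _ _ _ _ _ _ _ _ _ _ _ Q hQ T hT ε hε
    exact Q101.PathLat.projective hQ hT hε
  · rintro E _ _ _ _ _ _ _ ⟨U, hU⟩
    exact Q101.PathLat.not_sum U hU

end Pool.Agent.Results.MP_23899c_an.PathLattice
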